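import Pool.Agent.Lib_helper74.KY.ClassesB

/-!
# Truth-table reductions, small circuits and exponential time with advice, for the machine model of
`CKF.Defs`
-/

set_option autoImplicit false

namespace Pool.Agent.CK

/-- `A ≤_tt^P B` relative to `O`: for an input `x`, a list `l` of queries (nonadaptive: `l`
does not depend on `B`) is computed in polynomial time, and `A x` is decided in polynomial time
from `x` and the answers of `B` to these queries. -/
def TTReducible (O A B : Lang) : Prop :=
  ∃ (q : List Bool → List Bool) (V : Lang), InFP O q ∧ InP O V ∧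
    ∀ x, ∃ l : List (List Bool), q x = l.flatMap code ∧ A x = V (code x ++ l.map B)

/-- `C` is `≤_tt^P`-complete for `NP`, relative to `O`. -/
def TTComplete (O C : Lang) : Prop := InNP O C ∧ ∀ A, InNP O A → TTReducible O A C

/-- `U` has circuits of polynomial size that can be computed in polynomial time with an oracle in
`NP^O`: `U` is decided in polynomial time with an advice `w n` of polynomial length for the inputs
of length `n`, and the function `x ↦ w |x|` is in `FP^(NP^O)`. -/
def SmallCircuits (O U : Lang) : Prop :=
  ∃ (c : Cmd) (k : ℕ) (w : ℕ → List Bool), (∃ j : ℕ, ∀ n, (w n).length ≤ (n + 2) ^ j) ∧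
    (∃ B, InNP O B ∧ InFP (join O B) fun x => w x.length) ∧
    ∀ x : List Bool, Halts O c x (w x.length) ((x.length + 2) ^ k) ∧
      (Accepts O c x (w x.length) ((x.length + 2) ^ k) ↔ U x = true)

/-- `L ∈ i.o.-E^O / O(2 ^ (ε n))`: there is a program with time bound `2 ^ (k (n + 1))` which for
infinitely many `n` decides `L` on all inputs of length `n`, with an advice of length
`O(2 ^ (ε n))`. -/
def InIOEadvice (O : Lang) (ε : ℝ) (L : Lang) : Prop :=
  ∃ (c : Cmd) (k a : ℕ), ∀ n0 : ℕ, ∃ n : ℕ, n0 ≤ n ∧ ∃ w : List Bool,
    (w.length : ℝ) ≤ a * (2 : ℝ) ^ (ε * n) ∧ ∀ x : List Bool, x.length = n →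
      Halts O c x w (2 ^ (k * (n + 1))) ∧ (Accepts O c x w (2 ^ (k * (n + 1))) ↔ L x = true)

end Pool.Agent.CK
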