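import Pool.Agent.Lib_helper74.CKF.Defs

/-!
# Exponential time with advice for many input lengths, for the machine model of `CKF.Defs`
-/

set_option autoImplicit false

namespace Pool.Agent.CK

/-- There is a program with time bound `2 ^ (k (n + 1))` such that for every sufficiently large
number `n0` the interval `[n0, 2 ^ (ε n0)]` contains a number `n` for which the program decides `L`
on all inputs of length at most `n`, with one advice of length at most `2 ^ (ε n)`. -/
def InOftenEadvice (O : Lang) (ε : ℝ) (L : Lang) : Prop :=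
  ∃ (c : Cmd) (k n1 : ℕ), ∀ n0 : ℕ, n1 ≤ n0 → ∃ n : ℕ,
    n0 ≤ n ∧ (n : ℝ) ≤ (2 : ℝ) ^ (ε * n0) ∧ ∃ w : List Bool,
      (w.length : ℝ) ≤ (2 : ℝ) ^ (ε * n) ∧ ∀ x : List Bool, x.length ≤ n →
        Halts O c x w (2 ^ (k * (n + 1))) ∧ (Accepts O c x w (2 ^ (k * (n + 1))) ↔ L x = true)

end Pool.Agent.CK
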