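import Pool.Agent.Lib_helper74.NF.ClassesE

/-!
# Bounded truth-table reductions, for the machine model of `CKF.Defs`
-/

set_option autoImplicit false

namespace Pool.Agent.CK

/-- a self-delimiting code of strings -/
def code (x : List Bool) : List Bool := (x.flatMap fun b => [true, b]) ++ [false]

/-- `A ≤_btt^P B` relative to `O`: for an input `x`, a list `l` of at most `b` queries, for a
constant `b` (nonadaptive: `l` does not depend on `B`), is computed in polynomial time, and `A x`
is decided in polynomial time from `x` and the answers of `B` to these queries. -/
def BTTReducible (O A B : Lang) : Prop :=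
  ∃ (q : List Bool → List Bool) (V : Lang) (b : ℕ), InFP O q ∧ InP O V ∧
    ∀ x, ∃ l : List (List Bool), l.length ≤ b ∧ q x = l.flatMap code ∧ A x = V (code x ++ l.map B)

/-- `C` is `≤_btt^P`-complete for `NP`, relative to `O`. -/
def BTTComplete (O C : Lang) : Prop := InNP O C ∧ ∀ A, InNP O A → BTTReducible O A C

end Pool.Agent.CK
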