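import Pool.Agent.Lib_helper74.KY.ClassesB

/-!
# Truth-table reductions with few alternations, for the machine model of `CKF.Defs`
-/

set_option autoImplicit false

namespace Pool.Agent.CK

/-- `A` reduces to `B`, relative to `O`, by a polynomial time truth-table reduction with few
alternations, for constants `β < 1` and `b`: for an input `x`, a list `l` of queries (nonadaptive:
`l` does not depend on `B`) is computed in polynomial time, `A x` is decided in polynomial time from
`x` and the answers of `B` to these queries, and every sequence `w` of answer vectors which is
increasing (no answer `1` is changed to `0`) and at each step of which the evaluator changes its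
decision has at most `|x| ^ β + b` elements. -/
def FewAltReducible (O A B : Lang) : Prop :=
  ∃ (q : List Bool → List Bool) (V : Lang) (β : ℝ) (b : ℕ), β < 1 ∧ InFP O q ∧ InP O V ∧
    ∀ x, ∃ l : List (List Bool), q x = l.flatMap code ∧ A x = V (code x ++ l.map B) ∧
      ∀ w : List (List Bool), (∀ y ∈ w, y.length = l.length) →
        w.IsChain (fun y y' => List.Forall₂ (· ≤ ·) y y' ∧ V (code x ++ y) ≠ V (code x ++ y')) →
        (w.length : ℝ) ≤ (x.length : ℝ) ^ β + b

/-- `C` is in `NP` and all languages in `NP` reduce to it by truth-table reductions with few
alternations, relative to `O`. -/
def FewAltComplete (O C : Lang) : Prop := InNP O C ∧ ∀ A, InNP O A → FewAltReducible O A C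

end Pool.Agent.CK
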