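import Pool.Agent.Lib_helper74.NF.ENPB
import Pool.Agent.Lib_helper74.KY.ClassesB

/-!
# Keys: consequences of the collapse for hard instances (MP_675993_lc), internal definitions

Papers: `/team-store/KEY_Proof_helper74.md`, `/team-store/KEY2_helper57.md`.
-/

set_option autoImplicit false
set_option linter.unusedSectionVars false

namespace Pool.Agent.CKP

open Pool.Agent.CK

/-! ## The functions of the core lemma -/

/-- the list of witnesses in a query of a key has at least this length -/
def cutK (c : ℕ) (z : List Bool) : ℕ := 2 * (z.length + 2) ^ c

/-- some entry of `ws` is not the least witness, according to the table `T` -/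
def badK (T ws : List (Bool × ℕ)) : Bool :=
  (rangeU (ulen ws)).any fun u => (ent T u.length).1 &&
    (!(ent ws u.length).1 || decide ((ent T u.length).2 < (ent ws u.length).2))

section core

variable (O : Lang) (W : ℕ → ℕ → Bool) (r k c : ℕ)

/-- the query `q` of the instance `z` is not decided by the table `T`: it has a long and correct
list of witnesses -/
def longK (T : List (Bool × ℕ)) (z q : List Bool) : Bool :=
  typ q && (valid W r k q && (!(badK T (wss q)) && decide (cutK c z ≤ (wss q).length)))

/-- the answer to the query `q`, according to the table `T` -/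
def valK (N : List Unit) (T : List (Bool × ℕ)) (q : List Bool) : Bool :=
  if typ q = true then valid W r k q && (badK T (wss q) || (brute O (xx q) N).2)
  else (ent T (colr q).length).1 && decide ((ent T (colr q).length).2 < thr q)

/-- an instance `z` with the list `l` of queries and the evaluator `V` is recognized as an
element -/
def yesK (V : List Bool → List Bool → Bool) (N : List Unit) (T : List (Bool × ℕ)) (z : List Bool)
    (l : List (List Bool)) : Bool :=
  !(l.any fun q => longK W r k c T z q) && V z (l.map fun q => valK O W r k N T q)

/-- `z` is recognized as a non-element -/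
def noK (V : List Bool → List Bool → Bool) (N : List Unit) (T : List (Bool × ℕ)) (z : List Bool)
    (l : List (List Bool)) : Bool :=
  !(l.any fun q => longK W r k c T z q) && !V z (l.map fun q => valK O W r k N T q)

/-- the entries for `x` in the valid queries of a list -/
def entsK (x : List Bool) (l : List (List Bool)) : List (Bool × ℕ) :=
  (l.filter fun q => typ q && (valid W r k q && decide (num x < (wss q).length))).map
    fun q => ent (wss q) (toNum (ulen (wss q)) x).length

/-- the smaller one of two entries (`none` is infinite) -/
def minE (a b : Bool × ℕ) : Bool × ℕ :=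
  if (b.1 && (!a.1 || decide (b.2 < a.2))) = true then b else a

/-- the least entry -/
def minL (l : List (Bool × ℕ)) : Bool × ℕ := l.foldl minE (false, 0)

/-- the value of `L x` read in a list of queries -/
def keyK (ans : List Unit → ℕ → Bool) (x : List Bool) (l : List (List Bool)) : List Bool :=
  if (entsK W r k x l).isEmpty = true then []
  else [ans (toNum (l.flatMap fun q => ulen (wss q)) x) (minL (entsK W r k x l)).2]

end core

/-- a list of strings from its code -/
def items : List Bool → List (List Bool)
  | [] => []
  | false :: l => [] :: items l
  | [true] => []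
  | true :: b :: l => match items l with
    | [] => []
    | x :: t => (b :: x) :: t

/-- What the core lemma gives for the set `U` and the language `L`; `τ` is the advice. -/
structure KeyData (adv : Bool) (O U L : Lang) (c : ℕ) (ε : ℝ) (τ : ℕ → List Bool)
    (Y M : List Unit → List Bool → List Bool → Bool)
    (B : List Bool → List (List Bool) → List Bool) (e : ℕ → ℕ) (C : ℕ) : Prop where
  hY : PTime O (fun p : List Unit × List Bool × List Bool => Y p.1 p.2.1 p.2.2)
  hM : PTime O (fun p : List Unit × List Bool × List Bool => M p.1 p.2.1 p.2.2)
  hB : PTime O (fun p : List Bool × List (List Bool) => B p.1 p.2)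
  he : UPoly O e
  growth : ∀ m : ℕ, (e m : ℝ) ≤ C * (m : ℝ) ^ ε + C
  tau : ∃ P : Polynomial ℕ, ∀ n, (τ n).length ≤ P.eval n
  noadv : adv = false → ∀ n, τ n = []
  junk : adv = true → ∀ N z, Y N z [] = false ∧ M N z [] = false
  yes : ∀ (z : List Bool) (N : List Unit), 2 ^ e z.length ≤ N.length →
    Y N z (τ z.length) = true → U z = true
  no : ∀ (z : List Bool) (N : List Unit), 2 ^ e z.length ≤ N.length →
    M N z (τ z.length) = true → U z = false
  key : ∀ (x z : List Bool) (N : List Unit) (Z : List (List Bool)), z ∈ Z →
    2 ^ e z.length ≤ N.length → 2 ^ x.length ≤ (z.length + 2) ^ c →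
    Y N z (τ z.length) = false → M N z (τ z.length) = false → B x Z = [L x]

/-- the core lemma, for all `U` and `L` -/
def CoreProp (adv : Bool) (O : Lang) : Prop :=
  ∀ U L : Lang, InNP O U → InENP O L → ∀ (c : ℕ) (ε : ℝ), 0 < ε →
    ∃ (τ : ℕ → List Bool) (Y M : List Unit → List Bool → List Bool → Bool)
      (B : List Bool → List (List Bool) → List Bool) (e : ℕ → ℕ) (C : ℕ),
      KeyData adv O U L c ε τ Y M B e C

end Pool.Agent.CKP
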