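import Pool.Agent.Lib_helper74.KY.Defs

/-!
# Keys: the recursive decision procedure (MP_675993_lc), internal definitions

If no instance `y` of the universal `NP` language `UK O` of length `≥ n0` has a query with a long
correct list, then every query of `y` is decided by the table `T` of least witnesses, or it is
equivalent to a much shorter instance `xx q` of `UK O`.
-/

set_option autoImplicit false
set_option linter.unusedSectionVars false

namespace Pool.Agent.CKP

open Pool.Agent.CK

section rec

variable (O : Lang) (W : ℕ → ℕ → Bool) (r k : ℕ) (Q : List Bool → List (List Bool))
  (V : List Bool → List Bool → Bool) (n0 : ℕ) (U : List Unit)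

/-- the query `q` of `y` has a correct list (according to `T`), and its instance `xx q` is much
shorter than `y` -/
def okR (T : List (Bool × ℕ)) (y q : List Bool) : Bool :=
  typ q && (valid W r k q && (!(badK T (wss q)) &&
    decide (((xx q).length + 2) ^ 2 ≤ y.length + 2)))

/-- the subinstances of `y` -/
def subR (T : List (Bool × ℕ)) (y : List Bool) : List (List Bool) :=
  if decide (y.length < n0) = true then [] else ((Q y).filter fun q => okR W r k T y q).map xx

/-- all subinstances of subinstances .. of `y`, and the last generation, after `|u|` steps -/
def closR (T : List (Bool × ℕ)) (y : List Bool) (u : List Unit) :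
    List (List Bool) × List (List Bool) :=
  u.foldl (fun s _ => (s.1 ++ s.2.flatMap (subR W r k Q n0 T), s.2.flatMap (subR W r k Q n0 T)))
    ([y], [y])

/-- the decision for `y`, if the values of the subinstances are given by `φ`; for short `y`:
exhaustive search in time `|U|` -/
def valR (T : List (Bool × ℕ)) (φ : List Bool → Bool) (y : List Bool) : Bool :=
  if decide (y.length < n0) = true then (brute O y U).2
  else V y ((Q y).map fun q => if okR W r k T y q = true then φ (xx q) else valK O W r k [] T q)

/-- look up the value of `y` in a list -/
def lkR (A : List (List Bool × Bool)) (y : List Bool) : Bool :=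
  A.any fun p => decide (num p.1 = num y) && p.2

/-- compute new values from a list of values -/
def passR (T : List (Bool × ℕ)) (A : List (List Bool × Bool)) : List (List Bool × Bool) :=
  A.map fun p => (p.1, valR O W r k Q V n0 U T (lkR A) p.1)

/-- the decision procedure with table `T` -/
def decR (T : List (Bool × ℕ)) (y : List Bool) : Bool :=
  lkR ((() :: ulen y).foldl (fun A _ => passR O W r k Q V n0 U T A)
    ((closR W r k Q n0 T y (() :: ulen y)).1.map fun s => (s, false))) y

end rec

end Pool.Agent.CKP
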